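import Pool.Agent.W517.Gr.Proj

set_option autoImplicit false

namespace Pool.Agent.Results.MP_4f6c32_ag.ProjectiveSpaceCounterexample

open Pool.Agent.W517.Gr

/-- **Griffiths' conjecture on positive Chern forms is false on projective space.**

There is a smooth Hermitian metric `h` on the holomorphic vector bundle `E = O(1)^8` over `ℙ⁸` such
that `(E, h)` is Griffiths positive everywhere (at every point of each of the nine standard affine
charts), while the Chern form `c_8(E, h)`, the Schur form of the partition `(8, 0, …, 0)`, is not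
positive at the point `[1 : 0 : ⋯ : 0]`: its value on the positively oriented real frame
`(e_1, i e_1, …, e_8, i e_8)` of the tangent space is a negative real number. -/
theorem result : ∃ h : Cn 9 → Matrix (Fin 8) (Fin 8) ℂ, IsMetricOnO1 h ∧
    (∀ (i : Fin 9) (w : Cn 8), GriffithsPositiveAt (inChart i h) w) ∧
    ¬ IsPositiveForm 8 (chernForm (inChart 0 h) 8 0) ∧
    (evalForm (realFrame fun i : Fin 8 => (Pi.single i 1 : Cn 8))
      (chernForm (inChart 0 h) 8 0).1).re < 0 ∧
    (evalForm (realFrame fun i : Fin 8 => (Pi.single i 1 : Cn 8))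
      (chernForm (inChart 0 h) 8 0).1).im = 0 := by
  obtain ⟨h, h1, h2, h5⟩ := exists_proj
  have h6 := (Complex.lt_def.1 h5).1
  have h7 := (Complex.lt_def.1 h5).2
  rw [Complex.zero_re] at h6
  rw [Complex.zero_im] at h7
  exact ⟨h, h1, h2, not_positive_of_neg _ h6, h6, h7⟩

end Pool.Agent.Results.MP_4f6c32_ag.ProjectiveSpaceCounterexample
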